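import Mathlib

set_option autoImplicit false

/-!
# MZR: the analytic row estimate (MP_2000e9_nt, every depth)
-/

namespace Pool.Agent.MZR

open Finset

/-- increasing enumeration (from 0) of the positive integers different from `m` -/
def b (m i : ℕ) : ℕ := if i + 1 < m then i + 1 else i + 2

theorem b_pos (m i : ℕ) : 0 < b m i := by unfold b; split_ifs <;> omega
theorem b_ge (m i : ℕ) : i + 1 ≤ b m i := by unfold b; split_ifs <;> omega
theorem b_le (m i : ℕ) : b m i ≤ i + 2 := by unfold b; split_ifs <;> omega
theorem b_lt {m i j : ℕ} (h : i < j) : b m i < b m j := by unfold b; split_ifs <;> omega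
theorem b_mono (m : ℕ) : StrictMono (b m) := fun _ _ h => b_lt h
theorem b_ne (m i : ℕ) : b m i ≠ m := by unfold b; split_ifs <;> omega

/-- every positive integer different from `m` is a value -/
theorem b_surj {m n : ℕ} (hm : 1 ≤ m) (hn : 1 ≤ n) (h : n ≠ m) : ∃ i, b m i = n := by
  by_cases h1 : n < m
  · exact ⟨n - 1, by unfold b; split_ifs <;> omega⟩
  · exact ⟨n - 2, by unfold b; split_ifs <;> omega⟩

/-- product of the values on a set of `c` elements is at least the product of the first `c` -/
theorem prod_le (f : ℕ → ℝ) (hf0 : ∀ i, 0 < f i) (hf : StrictMono f) (s : Finset ℕ) :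
    ∏ i ∈ range s.card, f i ≤ ∏ i ∈ s, f i := by
  refine Finset.induction_on_max s (by simp) ?_
  · intro a s ha ih
    have hns : a ∉ s := fun h => lt_irrefl _ (ha a h)
    rw [card_insert_of_notMem hns, prod_range_succ, prod_insert hns, mul_comm]
    have h1 : s.card ≤ a := by
      have : s ⊆ range a := fun x hx => mem_range.2 (ha x hx)
      simpa using card_le_card this
    exact mul_le_mul (hf.monotone h1) ih (prod_nonneg fun i _ => (hf0 i).le) (hf0 a).le

/-- Abel summation in the exponents -/
theorem abel (k G : ℕ) (r : ℕ → ℝ) (hr : ∀ i, 0 < r i) (hQ : ∀ j, j < k → ∏ i ∈ range (j + 1), r i ≤ 1)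
    (x : ℕ → ℕ) (hx : ∀ i, i + 1 < k → x (i + 1) + G ≤ x i) (hl : ∀ i, i + 1 = k → G ≤ x i) :
    ∏ i ∈ range k, r i ^ x i ≤ (∏ j ∈ range k, ∏ i ∈ range (j + 1), r i) ^ G := by
  induction k generalizing x with
  | zero => simp
  | succ k ih =>
    have hQ0 : ∀ j, 0 < ∏ i ∈ range (j + 1), r i := fun j => prod_pos fun i _ => hr i
    have hle : ∀ i, i < k → x k + G ≤ x i := by
      intro i hi
      have key : ∀ t, ∀ i, i + t + 1 = k → x k + G ≤ x i := by
        intro t
        induction t with
        | zero => intro i hi; have := hx i (by omega); rw [show i + 1 = k by omega] at this; exact this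
        | succ t iht =>
          intro i hi
          have h1 := iht (i + 1) (by omega)
          have h2 := hx i (by omega)
          omega
      exact key (k - 1 - i) i (by omega)
    have h1 := ih (fun j hj => hQ j (by omega)) (fun i => x i - x k)
      (fun i hi => by
        have h2 := hx i (by omega)
        have h3 := hle (i + 1) (by omega)
        show x (i + 1) - x k + G ≤ x i - x k
        omega)
      (fun i hi => by
        have h3 := hle i (by omega)
        show G ≤ x i - x k
        omega)
    have h2 : ∏ i ∈ range (k + 1), r i ^ x i =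
        (∏ i ∈ range (k + 1), r i) ^ x k * ∏ i ∈ range k, r i ^ (x i - x k) := by
      rw [prod_range_succ, ← prod_pow, prod_range_succ]
      rw [mul_comm (∏ i ∈ range k, r i ^ x k) (r k ^ x k), mul_assoc, ← prod_mul_distrib, mul_comm]
      congr 1
      refine prod_congr rfl fun i hi => ?_
      rw [← pow_add]
      congr 1
      have := hle i (mem_range.1 hi)
      omega
    have h3 : (∏ i ∈ range (k + 1), r i) ^ x k ≤ (∏ i ∈ range (k + 1), r i) ^ G :=
      pow_le_pow_of_le_one (hQ0 k).le (hQ k (by omega)) (hl k rfl)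
    have h4 : (∏ j ∈ range (k + 1), ∏ i ∈ range (j + 1), r i) ^ G =
        (∏ i ∈ range (k + 1), r i) ^ G * (∏ j ∈ range k, ∏ i ∈ range (j + 1), r i) ^ G := by
      rw [← mul_pow, prod_range_succ (fun j => ∏ i ∈ range (j + 1), r i) k, mul_comm]
    rw [h2, h4]
    exact mul_le_mul h3 h1 (prod_nonneg fun j _ => pow_nonneg (hr j).le _) (pow_nonneg (hQ0 k).le _)

/-- products of summable functions over injective tuples -/
theorem summable_emb {k : ℕ} {f : ℕ → ℝ} (hf : ∀ m, 0 ≤ f m) (hs : Summable f) :
    Summable (fun p : Fin k ↪ ℕ => ∏ i, f (p i)) := by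
  classical
  have h0 : Summable (fun z : Fin k → ℕ => ∏ i, f (z i)) := by
    refine summable_of_sum_le (c := (∑' m, f m) ^ k)
      (fun z => Finset.prod_nonneg fun i _ => hf _) ?_
    intro u
    have h1 : u ⊆ Fintype.piFinset (fun i => u.image (fun z => z i)) := by
      intro z hz
      rw [Fintype.mem_piFinset]
      intro i
      exact Finset.mem_image_of_mem _ hz
    calc ∑ z ∈ u, ∏ i, f (z i)
        ≤ ∑ z ∈ Fintype.piFinset (fun i => u.image (fun z => z i)), ∏ i, f (z i) :=
          Finset.sum_le_sum_of_subset_of_nonneg h1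
            (fun z _ _ => Finset.prod_nonneg fun i _ => hf _)
      _ = ∏ i : Fin k, ∑ m ∈ u.image (fun z => z i), f m := by
          rw [Finset.prod_univ_sum]
      _ ≤ ∏ _i : Fin k, ∑' m, f m := by
          refine Finset.prod_le_prod (fun i _ => Finset.sum_nonneg fun m _ => hf _) ?_
          intro i _
          exact hs.sum_le_tsum _ (fun m _ => hf m)
      _ = (∑' m, f m) ^ k := by simp
  exact h0.comp_injective (i := fun p : Fin k ↪ ℕ => (p : Fin k → ℕ)) DFunLike.coe_injective

end Pool.Agent.MZR
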