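import Mathlib

set_option autoImplicit false

/-!
# MZR Trop: a tropical criterion for injectivity

A matrix with more than `m²` rows and `m` columns, all of whose `2 × 2` minors have one term much larger
than the other one, has trivial kernel.
-/

namespace Pool.Agent.MZR

open Finset

/-- the tropical criterion -/
theorem trop (m : ℕ) (I : Type) [Fintype I] (hI : m * m < Fintype.card I) (M : I → Fin m → ℝ)
    (h0 : ∀ i j, M i j ≠ 0)
    (h : ∀ i i', i ≠ i' → ∀ j j', j ≠ j' →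
      (m : ℝ) * |M i j * M i' j'| < |M i j' * M i' j| ∨
        (m : ℝ) * |M i j' * M i' j| < |M i j * M i' j'|)
    (x : Fin m → ℝ) (hx : ∀ i, ∑ j, M i j * x j = 0) : x = 0 := by
  classical
  by_contra hne
  -- in each row two comparable terms
  have key : ∀ i : I, ∃ p : Fin m × Fin m, p.1 ≠ p.2 ∧ x p.1 ≠ 0 ∧ x p.2 ≠ 0 ∧
      |M i p.2 * x p.2| ≤ |M i p.1 * x p.1| ∧ |M i p.1 * x p.1| ≤ m * |M i p.2 * x p.2| := by
    intro i
    obtain ⟨j0, hj0⟩ : ∃ j, x j ≠ 0 := by
      by_contra hcon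
      push Not at hcon
      exact hne (funext hcon)
    obtain ⟨j, _, hj⟩ := Finset.exists_max_image (Finset.univ : Finset (Fin m))
      (fun j => |M i j * x j|) ⟨j0, Finset.mem_univ _⟩
    have hjpos : 0 < |M i j * x j| :=
      lt_of_lt_of_le (abs_pos.2 (mul_ne_zero (h0 i j0) hj0)) (hj j0 (Finset.mem_univ _))
    have hxj : x j ≠ 0 := by
      intro h1
      rw [h1, mul_zero, abs_zero] at hjpos
      exact lt_irrefl _ hjpos
    -- another term of comparable size
    have h1 : |M i j * x j| ≤ ∑ j' ∈ Finset.univ.erase j, |M i j' * x j'| := by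
      have h2 := hx i
      rw [← Finset.add_sum_erase _ _ (Finset.mem_univ j)] at h2
      have h3 : M i j * x j = -∑ j' ∈ Finset.univ.erase j, M i j' * x j' := by linarith
      rw [h3, abs_neg]
      exact Finset.abs_sum_le_sum_abs _ _
    by_contra hcon
    push Not at hcon
    have hm0 : (0 : ℝ) < m := by
      have : 0 < m := j.pos
      exact_mod_cast this
    have h2 : ∀ j' ∈ Finset.univ.erase j, (m : ℝ) * |M i j' * x j'| ≤ |M i j * x j| := by
      intro j' hj'
      by_cases hx' : x j' = 0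
      · rw [hx', mul_zero, abs_zero, mul_zero]
        exact hjpos.le
      · exact (hcon (j, j') (Finset.ne_of_mem_erase hj').symm hxj hx' (hj j' (Finset.mem_univ _))).le
    have h3 : (m : ℝ) * ∑ j' ∈ Finset.univ.erase j, |M i j' * x j'| ≤
        ((m : ℝ) - 1) * |M i j * x j| := by
      rw [Finset.mul_sum]
      refine (Finset.sum_le_card_nsmul _ _ _ h2).trans ?_
      rw [Finset.card_erase_of_mem (Finset.mem_univ j), Finset.card_univ, Fintype.card_fin,
        nsmul_eq_mul]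
      rw [Nat.cast_sub (Nat.succ_le_of_lt j.pos)]
      simp
    have h4 : (m : ℝ) * |M i j * x j| ≤ ((m : ℝ) - 1) * |M i j * x j| :=
      (mul_le_mul_of_nonneg_left h1 hm0.le).trans h3
    nlinarith
  choose f hf using key
  have hcard : Fintype.card (Fin m × Fin m) < Fintype.card I := by
    rw [Fintype.card_prod, Fintype.card_fin]
    exact hI
  obtain ⟨i, i', hii, hff⟩ := Fintype.exists_ne_map_eq_of_card_lt f hcard
  obtain ⟨a1, a2, a3, a4, a5⟩ := hf i
  obtain ⟨b1, b2, b3, b4, b5⟩ := hf i'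
  rw [← hff] at b1 b2 b3 b4 b5
  set j := (f i).1
  set j' := (f i).2
  rw [abs_mul, abs_mul] at a4 a5 b4 b5
  have px : 0 < |x j| := abs_pos.2 a2
  have px' : 0 < |x j'| := abs_pos.2 a3
  have hm0 : (0 : ℝ) ≤ m := Nat.cast_nonneg m
  have pp : 0 < |x j| * |x j'| := mul_pos px px'
  have n1 : 0 ≤ |M i j'| := abs_nonneg _
  have n2 : 0 ≤ |M i' j'| := abs_nonneg _
  have n3 : 0 ≤ |M i j| := abs_nonneg _
  have n4 : 0 ≤ |M i' j| := abs_nonneg _
  rcases h i i' hii j j' a1 with h1 | h1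
  · -- m |M i j| |M i' j'| < |M i j'| |M i' j|
    rw [abs_mul, abs_mul] at h1
    -- |M i j'| |x j'| ≤ |M i j| |x j|, |M i' j| |x j| ≤ m |M i' j'| |x j'|
    have e1 : (|M i j'| * |x j'|) * (|M i' j| * |x j|) ≤
        (|M i j| * |x j|) * (m * (|M i' j'| * |x j'|)) :=
      mul_le_mul a4 b5 (by positivity) (by positivity)
    have e2 : (m : ℝ) * (|M i j| * |M i' j'|) * (|x j| * |x j'|) <
        (|M i j'| * |M i' j|) * (|x j| * |x j'|) := mul_lt_mul_of_pos_right h1 pp
    nlinarith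
  · rw [abs_mul, abs_mul] at h1
    have e1 : (|M i' j'| * |x j'|) * (|M i j| * |x j|) ≤
        (|M i' j| * |x j|) * (m * (|M i j'| * |x j'|)) :=
      mul_le_mul b4 a5 (by positivity) (by positivity)
    have e2 : (m : ℝ) * (|M i j'| * |M i' j|) * (|x j| * |x j'|) <
        (|M i j| * |M i' j'|) * (|x j| * |x j'|) := mul_lt_mul_of_pos_right h1 pp
    nlinarith

/-- the form for subspaces -/
theorem trop_sub (K : IntermediateField ℚ ℝ) (V : Submodule K ℝ) (m : ℕ) (I : Type) [Fintype I]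
    (hI : m * m < Fintype.card I) (M : I → Fin m → ℝ) (hM : ∀ i j, M i j ∈ K)
    (h0 : ∀ i j, M i j ≠ 0)
    (h : ∀ i i', i ≠ i' → ∀ j j', j ≠ j' →
      (m : ℝ) * |M i j * M i' j'| < |M i j' * M i' j| ∨
        (m : ℝ) * |M i j' * M i' j| < |M i j * M i' j'|)
    (w : Fin m → ℝ) (hw : ∀ i, ∑ j, M i j * w j ∈ V) : ∀ j, w j ∈ V := by
  intro j
  rw [← Submodule.Quotient.mk_eq_zero V, ← Module.forall_dual_apply_eq_zero_iff K]
  intro φ
  set ψ : ℝ →ₗ[K] K := φ.comp V.mkQ with hψ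
  have hV : ∀ y ∈ V, ψ y = 0 := by
    intro y hy
    rw [hψ, LinearMap.comp_apply, Submodule.mkQ_apply, (Submodule.Quotient.mk_eq_zero V).2 hy,
      map_zero]
  have hx : ∀ i, ∑ k, M i k * ((ψ (w k) : K) : ℝ) = 0 := by
    intro i
    have h1 : ψ (∑ k, M i k * w k) = 0 := hV _ (hw i)
    have h2 : ∑ k, M i k * w k = ∑ k, (⟨M i k, hM i k⟩ : K) • w k := by
      apply Finset.sum_congr rfl
      intro k _
      rw [Algebra.smul_def]
      rfl
    rw [h2, map_sum] at h1
    have h3 := congrArg (fun z : K => (z : ℝ)) h1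
    simp only [map_smul, smul_eq_mul] at h3
    rw [← h3.trans (by simp : ((0 : K) : ℝ) = 0)]
    rw [show (((∑ k, (⟨M i k, hM i k⟩ : K) * ψ (w k) : K)) : ℝ) =
      ∑ k, (((⟨M i k, hM i k⟩ : K) * ψ (w k) : K) : ℝ) from by push_cast; rfl]
    rfl
  have h1 := trop m I hI M h0 h (fun k => ((ψ (w k) : K) : ℝ)) hx
  have h2 := congrFun h1 j
  have h3 : ((ψ (w j) : K) : ℝ) = 0 := h2
  have h4 : ψ (w j) = 0 := by exact_mod_cast h3
  exact h4

end Pool.Agent.MZR
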